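import Pool.Agent.LRG.StmtsA
import Pool.Agent.Helper79_LUB.PCS

namespace Pool.Agent.Helper92_LRG

open Pool.Agent.LRG

theorem pcm : A.PcmStmt := by
  intro p _ σ
  exact Pool.Agent.LUB.H79.pc_mv p (Pool.Agent.LUB.H79.pc_base p) σ

end Pool.Agent.Helper92_LRG
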