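import Pool.Agent.LRG.StmtsZ

namespace Pool.Agent.Helper92_LRG

open NumberField Pool.Agent.LRG

theorem pri : PriStmt := by
  intro r₁ r₂ hp T
  ext K
  constructor
  · rintro ⟨hK, h1, h2, _, h4⟩
    exact ⟨hK, h1, h2, h4⟩
  · rintro ⟨hK, h1, h2, h4⟩
    refine ⟨hK, h1, h2, ?_, h4⟩
    intro E
    have hn : Module.finrank ℚ K = r₁ + 2 * r₂ := by
      rw [← InfinitePlace.card_add_two_mul_card_eq_rank, h1, h2]
    have ht := Module.finrank_mul_finrank ℚ E K
    have hd : Module.finrank ℚ E ∣ r₁ + 2 * r₂ := ⟨Module.finrank E K, by rw [← hn]; exact ht.symm⟩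
    rcases (Nat.dvd_prime hp).mp hd with h | h
    · left
      exact IntermediateField.finrank_eq_one_iff.mp h
    · right
      exact IntermediateField.eq_of_le_of_finrank_eq le_top
        (by rw [IntermediateField.finrank_top', hn, h])

end Pool.Agent.Helper92_LRG
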