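import Pool.Agent.LRG.StmtsB

namespace Pool.Agent.Helper92_LRG

open IsLocalRing Pool.Agent.LRG

section

variable {R : Type} [CommRing R] [IsLocalRing R]

theorem mem_max_iff (f : PowerSeries R) :
    f ∈ maximalIdeal (PowerSeries R) ↔ PowerSeries.constantCoeff f ∈ maximalIdeal R := by
  rw [mem_maximalIdeal, mem_nonunits_iff, mem_maximalIdeal, mem_nonunits_iff,
    PowerSeries.isUnit_iff_constantCoeff]

theorem mem_pow_imp (n : ℕ) : ∀ (f : PowerSeries R), f ∈ maximalIdeal (PowerSeries R) ^ n →
    ∀ j : ℕ, PowerSeries.coeff j f ∈ maximalIdeal R ^ (n - j) := by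
  induction n with
  | zero =>
    intro f _ j
    simp
  | succ n ih =>
    intro f hf j
    rw [pow_succ] at hf
    refine Submodule.mul_induction_on hf ?_ ?_
    · intro a ha b hb
      rw [PowerSeries.coeff_mul]
      refine Ideal.sum_mem _ fun x hx => ?_
      have hx' := Finset.HasAntidiagonal.mem_antidiagonal.mp hx
      by_cases h2 : x.2 = 0
      · have h5 : PowerSeries.coeff x.2 b ∈ maximalIdeal R := by
          rw [h2, PowerSeries.coeff_zero_eq_constantCoeff_apply]
          exact (mem_max_iff b).mp hb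
        have h3 := Ideal.mul_mem_mul (ih a ha x.1) h5
        rw [← pow_succ] at h3
        exact Ideal.pow_le_pow_right (by omega) h3
      · have h3 := ih a ha x.1
        have h4 : PowerSeries.coeff x.1 a * PowerSeries.coeff x.2 b
            ∈ maximalIdeal R ^ (n - x.1) := Ideal.mul_mem_right _ _ h3
        exact Ideal.pow_le_pow_right (by omega) h4
    · intro a b ha hb
      rw [map_add]
      exact Ideal.add_mem _ ha hb

theorem C_mem_pow (k : ℕ) (a : R) (ha : a ∈ maximalIdeal R ^ k) :
    PowerSeries.C a ∈ maximalIdeal (PowerSeries R) ^ k := by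
  have h1 : (maximalIdeal R ^ k).map (PowerSeries.C (R := R))
      ≤ maximalIdeal (PowerSeries R) ^ k := by
    rw [Ideal.map_pow]
    refine Ideal.pow_right_mono ?_ k
    rw [Ideal.map_le_iff_le_comap]
    intro x hx
    rw [Ideal.mem_comap, mem_max_iff, PowerSeries.constantCoeff_C]
    exact hx
  exact h1 (Ideal.mem_map_of_mem _ ha)

theorem mem_pow_of (n : ℕ) : ∀ (f : PowerSeries R),
    (∀ j < n, PowerSeries.coeff j f ∈ maximalIdeal R ^ (n - j)) →
    f ∈ maximalIdeal (PowerSeries R) ^ n := by
  induction n with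
  | zero =>
    intro f _
    simp
  | succ n ih =>
    intro f hf
    rw [PowerSeries.eq_X_mul_shift_add_const f]
    refine Ideal.add_mem _ ?_ ?_
    · rw [pow_succ']
      refine Ideal.mul_mem_mul ?_ (ih _ ?_)
      · rw [mem_max_iff, PowerSeries.constantCoeff_X]
        exact Ideal.zero_mem _
      · intro j hj
        rw [PowerSeries.coeff_mk]
        have h1 := hf (j + 1) (by omega)
        have h2 : n + 1 - (j + 1) = n - j := by omega
        rw [h2] at h1
        exact h1
    · refine C_mem_pow _ _ ?_
      have h1 := hf 0 (by omega)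
      rw [PowerSeries.coeff_zero_eq_constantCoeff_apply] at h1
      exact h1

end

theorem acp : AcpStmt := by
  intro R _ _ hR
  have hHaus : IsHausdorff (maximalIdeal R) R := hR.toIsHausdorff
  have hPrec : IsPrecomplete (maximalIdeal R) R := hR.toIsPrecomplete
  have e1 : ∀ n : ℕ, (maximalIdeal R ^ n • ⊤ : Submodule R R) = maximalIdeal R ^ n := by
    intro n
    rw [smul_eq_mul, Ideal.mul_top]
  have e2 : ∀ n : ℕ, (maximalIdeal (PowerSeries R) ^ n • ⊤ :
      Submodule (PowerSeries R) (PowerSeries R)) = maximalIdeal (PowerSeries R) ^ n := by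
    intro n
    rw [smul_eq_mul, Ideal.mul_top]
  refine { haus' := ?_, prec' := ?_ }
  · intro f hf
    ext j
    rw [map_zero]
    refine hHaus.haus _ fun n => ?_
    have h1 := hf (n + j)
    rw [SModEq.sub_mem, e2, sub_zero] at h1
    have h2 := mem_pow_imp _ f h1 j
    rw [SModEq.sub_mem, e1, sub_zero]
    rwa [Nat.add_sub_cancel] at h2
  · intro f hf
    have h1 : ∀ j : ℕ, ∃ L : R, ∀ n, PowerSeries.coeff j (f (n + j)) ≡ L
        [SMOD (maximalIdeal R ^ n • ⊤ : Submodule R R)] := by
      intro j
      refine hPrec.prec (f := fun n => PowerSeries.coeff j (f (n + j))) ?_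
      intro m n hmn
      have h2 := hf (show m + j ≤ n + j by omega)
      rw [SModEq.sub_mem, e2] at h2
      rw [SModEq.sub_mem, e1, ← map_sub]
      have h3 := mem_pow_imp _ _ h2 j
      rwa [Nat.add_sub_cancel] at h3
    choose c hc using h1
    refine ⟨PowerSeries.mk c, fun n => ?_⟩
    rw [SModEq.sub_mem, e2]
    refine mem_pow_of n _ fun j hj => ?_
    have h4 := hc j (n - j)
    rw [SModEq.sub_mem, e1, Nat.sub_add_cancel hj.le] at h4
    rw [map_sub, PowerSeries.coeff_mk]
    exact h4

end Pool.Agent.Helper92_LRG
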