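import Pool.Agent.LRG.StmtsB2

namespace Pool.Agent.Helper92_LRG

open Polynomial Pool.Agent.LRG

theorem rpr : RprStmt := by
  intro htrp hldp hdiv p _ n K a ha hdom M c
  obtain ⟨d, hd, hL⟩ := hldp p n K a ha hdom
  obtain ⟨P₀, P₁, hmon, hdeg, hP⟩ := hL M
  obtain ⟨T, hT⟩ : ∃ T : (Fin (n + 1) → Fin (M + 1)) → (MvPolynomial (Fin n) ℤ_[p])[X],
      ∀ α, T α = (X : (MvPolynomial (Fin n) ℤ_[p])[X]) ^ ((α 0 : Fin (M + 1)) : ℕ)
        * ∏ i : Fin n, (C (MvPolynomial.X i : MvPolynomial (Fin n) ℤ_[p])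
          + X ^ (K + 1) ^ ((i : ℕ) + 1)) ^ ((α i.succ : Fin (M + 1)) : ℕ) := ⟨_, fun _ => rfl⟩
  obtain ⟨cf, hcf⟩ : ∃ cf : (Fin (n + 1) → Fin (M + 1)) → ℤ_[p],
      ∀ α, cf α = MvPowerSeries.coeff (fse α) c * (p : ℤ_[p]) ^ (∑ i, (α i : ℕ)) :=
    ⟨_, fun _ => rfl⟩
  obtain ⟨Q, hQ⟩ : ∃ Q : (MvPolynomial (Fin n) ℤ_[p])[X],
      Q = ∑ α, C (MvPolynomial.C (cf α)) * T α := ⟨_, rfl⟩
  obtain ⟨q, r, e, hdv, hr⟩ := hdiv (MvPolynomial (Fin n) ℤ_[p])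
    (MvPolynomial.C (p : ℤ_[p])) P₀ P₁ hmon M Q
  refine ⟨r, ?_, ?_⟩
  · rw [degree_eq_natDegree hmon.ne_zero, hdeg] at hr
    exact lt_of_lt_of_le hr (by exact_mod_cast hd)
  · intro ϕ v hv hϕ
    obtain ⟨E, hE⟩ : ∃ E : (MvPolynomial (Fin n) ℤ_[p])[X] →+* ℤ_[p],
        ∀ P, E P = pev P (vp K v) (v 0) :=
      ⟨(Polynomial.evalRingHom (v 0)).comp
        (Polynomial.mapRingHom (MvPolynomial.eval (vp K v))), fun _ => rfl⟩
    have hEX : E X = v 0 := by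
      rw [hE]
      simp [pev]
    have hEC : ∀ b, E (C b) = MvPolynomial.eval (vp K v) b := by
      intro b
      rw [hE]
      simp [pev]
    have hET : ∀ α, E (T α) = ∏ i, v i ^ ((α i : Fin (M + 1)) : ℕ) := by
      intro α
      rw [hT, map_mul, map_pow, hEX, map_prod, Fin.prod_univ_succ]
      congr 1
      refine Finset.prod_congr rfl fun i _ => ?_
      rw [map_pow, map_add, hEC, MvPolynomial.eval_X, map_pow, hEX, vp, sub_add_cancel]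
    have hEQ : E Q = gv (fun α : Fin (n + 1) → Fin (M + 1) =>
        MvPowerSeries.coeff (fse α) c * (p : ℤ_[p]) ^ (∑ i, (α i : ℕ))) v := by
      rw [hQ, map_sum, gv]
      refine Finset.sum_congr rfl fun α _ => ?_
      rw [map_mul, hEC, MvPolynomial.eval_C, hET, hcf]
    have h1 := htrp p (n + 1) ϕ v hv c M
    rw [← hEQ] at h1
    have h2 := hP ϕ v hv hϕ
    rw [← hE] at h2 ⊢
    have h3 : E Q - E r = E q * E (P₀ + C (MvPolynomial.C (p : ℤ_[p])) * P₁)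
        + (p : ℤ_[p]) ^ M * E e := by
      have h4 : E (C (MvPolynomial.C (p : ℤ_[p]) ^ M)) = (p : ℤ_[p]) ^ M := by
        rw [hEC, map_pow, MvPolynomial.eval_C]
      conv_lhs => rw [hdv]
      rw [map_add, map_add, map_mul, map_mul, h4]
      ring
    have h5 : ϕ c - E r = (ϕ c - E Q) + (E Q - E r) := by ring
    rw [h5, h3]
    exact dvd_add h1 (dvd_add (Dvd.dvd.mul_left h2 _) (dvd_mul_right _ _))

end Pool.Agent.Helper92_LRG
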